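import Pool.Agent.W984.OL.Size

set_option autoImplicit false

/-!
# A polynomial-delay algorithm listing the orbits of words under permutation groups

The machine model (a random access machine with registers, arrays and an output tape, whose only
arithmetic is adding or subtracting one), the initial memory `input`, the relation `SameOrbit` and
the predicate `ListsWords` are in the file `Pool/Agent/W984/OL/Model.lean`.
-/

namespace Pool.Agent.Results.MP_80ff63_lc.PolynomialDelay

open Pool.Agent.W984.OL

/-- There is one program `p` and a constant `c` such that for every alphabet with `k ≥ 2` letters,
every length `m` and every list `S` of permutations of the `m` positions, the program `p`, started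
on `(k, m, S)`, outputs exactly one word of every orbit of the group generated by `S` on the words
of length `m`, with delay at most `D = (m + k + |S| + 2) ^ c` (before the first output, between
consecutive outputs, and between the last output and the halt). Moreover all numbers
stored by the machine are less than `2 ^ D` at all times, so they have polynomially many bits. -/
theorem result : ∃ (p : Prog) (c : ℕ), ∀ (k m : ℕ), 2 ≤ k → ∀ S : List (Equiv.Perm (Fin m)),
    (∃ ws : List (Fin m → Fin k),
      (∀ α : Fin m → Fin k, ∃! i : Fin ws.length, SameOrbit S α (ws.get i)) ∧
      ListsWords ((m + k + S.length + 2) ^ c)
        (ws.map (fun w => List.ofFn (fun x => (w x : ℕ)))) ([p], input k m S)) ∧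
    ∀ t, (∀ x, (step^[t] ([p], input k m S)).2.v x < 2 ^ (m + k + S.length + 2) ^ c) ∧
      ∀ r i j l, (step^[t] ([p], input k m S)).2.a r i j l < 2 ^ (m + k + S.length + 2) ^ c :=
  main2

end Pool.Agent.Results.MP_80ff63_lc.PolynomialDelay
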